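import Pool.Agent.Helper53.KC.Goals

/-!
# Almost every matroid is `k`-connected: counting matroids (CNT)
-/

namespace Pool.Agent.Helper62.KC

open Finset Pool.Agent.Helper53.KC

variable {n : ℕ}

/-! ### General lemmas -/

theorem ncard_le_of_rel {α β : Type*} (s : Set α) (T : Finset β) (R : α → β → Prop)
    (h1 : ∀ a ∈ s, ∃ b ∈ T, R a b)
    (h2 : ∀ a ∈ s, ∀ a' ∈ s, ∀ b ∈ T, R a b → R a' b → a = a') : s.ncard ≤ T.card := by
  classical
  by_cases hne : s = ∅
  · subst hne; simp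
  obtain ⟨a0, ha0⟩ := Set.nonempty_iff_ne_empty.2 hne
  obtain ⟨b0, -, -⟩ := h1 a0 ha0
  let f : α → β := fun a => if h : a ∈ s then (h1 a h).choose else b0
  have hf : ∀ a (h : a ∈ s), f a ∈ T ∧ R a (f a) := by
    intro a h
    have : f a = (h1 a h).choose := by simp [f, h]
    rw [this]
    exact (h1 a h).choose_spec
  have := Set.ncard_le_ncard_of_injOn (s := s) (t := (T : Set β)) f
    (fun a h => (hf a h).1)
    (fun a h a' h' he => h2 a h a' h' (f a) (hf a h).1 (hf a h).2 (he ▸ (hf a' h').2))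
    (Finset.finite_toSet T)
  rwa [Set.ncard_coe_finset] at this

theorem card_le_bl {α : Type*} [DecidableEq α] (s : Finset α) (u : ℕ) :
    (s.powerset.filter fun T => T.card ≤ u).card = bl s.card u := by
  unfold bl
  rw [Finset.card_eq_sum_card_fiberwise (f := Finset.card) (t := range (u + 1))]
  · refine Finset.sum_congr rfl fun j hj => ?_
    rw [← Finset.card_powersetCard]
    congr 1
    ext T
    simp only [mem_filter, mem_powerset, mem_powersetCard]
    have := mem_range.1 hj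
    constructor
    · rintro ⟨⟨h1, -⟩, h2⟩
      exact ⟨h1, h2⟩
    · rintro ⟨h1, h2⟩
      exact ⟨⟨h1, by omega⟩, h2⟩
  · intro T hT
    have := (mem_filter.1 hT).2
    simp only [coe_range, Set.mem_Iio]
    omega

theorem adj_symm (X Y : Finset (Fin n)) (h : adj X Y) : adj Y X := by
  unfold adj at *
  rw [inter_comm Y X]
  omega

theorem adj_irrefl (X : Finset (Fin n)) : ¬ adj X X := by
  unfold adj
  rw [inter_self]
  omega

/-- Neighbours are obtained by exchanging an element. -/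
theorem exists_sw {X Y : Finset (Fin n)} (h : adj X Y) :
    ∃ e ∈ X, ∃ f ∉ X, Y = sw X e f := by
  obtain ⟨h1, h2⟩ := h
  have h3 : (X \ Y).card = 1 := by
    have := Finset.card_sdiff_add_card_inter X Y
    omega
  have h4 : (Y \ X).card = 1 := by
    have := Finset.card_sdiff_add_card_inter Y X
    rw [inter_comm Y X] at this
    omega
  obtain ⟨e, he⟩ := Finset.card_eq_one.1 h3
  obtain ⟨f, hf⟩ := Finset.card_eq_one.1 h4
  have he' : ∀ x, (x ∈ X ∧ x ∉ Y) ↔ x = e := by
    intro x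
    rw [← mem_sdiff, he, mem_singleton]
  have hf' : ∀ x, (x ∈ Y ∧ x ∉ X) ↔ x = f := by
    intro x
    rw [← mem_sdiff, hf, mem_singleton]
  refine ⟨e, ((he' e).2 rfl).1, f, ((hf' f).2 rfl).2, ?_⟩
  ext x
  unfold sw
  rw [mem_insert, mem_erase]
  have h5 := he' x
  have h6 := hf' x
  tauto

/-- A maximal stable subset. -/
theorem exists_max_stb (P : Finset (Finset (Fin n))) :
    ∃ S ⊆ P, Stb S ∧ ∀ X' ∈ P, X' ∉ S → ∃ X ∈ S, adj X X' := by
  classical
  have hne : (P.powerset.filter Stb).Nonempty :=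
    ⟨∅, by simp [Stb]⟩
  obtain ⟨S, hS, hmax⟩ := Finset.exists_max_image _ Finset.card hne
  rw [mem_filter, mem_powerset] at hS
  refine ⟨S, hS.1, hS.2, fun X' hX' hn => ?_⟩
  by_contra hcon
  push Not at hcon
  have hst : Stb (insert X' S) := by
    intro X hX Y hY
    rw [mem_insert] at hX hY
    rcases hX with rfl | hX
    · rcases hY with rfl | hY
      · exact adj_irrefl _
      · exact fun h => hcon Y hY (adj_symm _ _ h)
    · rcases hY with rfl | hY
      · exact hcon X hX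
      · exact hS.2 X hX Y hY
  have := hmax (insert X' S) (by
    rw [mem_filter, mem_powerset]
    exact ⟨insert_subset hX' hS.1, hst⟩)
  rw [card_insert_of_notMem hn] at this
  omega

/-! ### The data of a matroid -/

open Classical in
/-- The information on the neighbours of `X`. -/
noncomputable def info (t : ℕ) (M : Matroid (Fin n)) (X : Finset (Fin n)) :
    Bool × Finset (Fin n) × Finset (Fin n) :=
  (decide (flag M X), if (Pf M X).card ≤ t then Pf M X else ∅,
    if (Qe M X).card ≤ t then Qe M X else ∅)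

theorem mem_NB {r : ℕ} {M : Matroid (Fin n)} {X : Finset (Fin n)} :
    X ∈ NB r M ↔ X ∈ V n r ∧ ¬ M.Indep (X : Set (Fin n)) := by
  classical
  unfold NB; exact mem_filter

theorem mem_V {r : ℕ} {X : Finset (Fin n)} : X ∈ V n r ↔ X.card = r := by
  unfold V; simp [mem_powersetCard]

/-- The status of the neighbours is determined. -/
theorem nbr_iff (hloc : LocStmt) {r t : ℕ} {M M' : Matroid (Fin n)} (hM : Rk r M) (hM' : Rk r M')
    (hC : thC r t M = thC r t M') (hH : thH r t M = thH r t M') {X Y : Finset (Fin n)}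
    (hX : X ∈ NB r M) (hX' : X ∈ NB r M') (hinfo : info t M X = info t M' X) (hadj : adj X Y) :
    Y ∈ NB r M → Y ∈ NB r M' := by
  obtain ⟨l1, l2⟩ := hloc n r t M hM X hX
  obtain ⟨l1', l2'⟩ := hloc n r t M' hM' X hX'
  obtain ⟨e, he, f, hf, rfl⟩ := exists_sw hadj
  unfold info at hinfo
  simp only [Prod.mk.injEq] at hinfo
  obtain ⟨i1, i2, i3⟩ := hinfo
  have i1' : flag M X ↔ flag M' X := by
    simpa [decide_eq_decide] using i1
  rw [mem_NB, mem_NB]
  rintro ⟨hV, hdep⟩
  refine ⟨hV, ?_⟩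
  by_cases hfl : flag M X
  · exact (i1'.1 hfl) e he f hf
  have hfl' : ¬ flag M' X := fun h => hfl (i1'.2 h)
  obtain ⟨m1, m2, m3, m4⟩ := l2 hfl
  obtain ⟨m1', m2', m3', m4'⟩ := l2' hfl'
  have hP : Pf M X = Pf M' X := by
    by_cases hex : ∃ H ∈ thH r t M, X ⊆ H
    · obtain ⟨H, hH1, hH2⟩ := hex
      rw [m2 H hH1 hH2, m2' H (hH ▸ hH1) hH2]
    · have h1 : (Pf M X).card ≤ t := by
        by_contra hcon
        exact hex (m1 (by omega))
      have h2 : (Pf M' X).card ≤ t := by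
        by_contra hcon
        exact hex (by rw [hH]; exact m1' (by omega))
      rwa [if_pos h1, if_pos h2] at i2
  have hQ : Qe M X = Qe M' X := by
    by_cases hex : ∃ C ∈ thC r t M, C ⊆ X
    · obtain ⟨C, hC1, hC2⟩ := hex
      rw [m4 C hC1 hC2, m4' C (hC ▸ hC1) hC2]
    · have h1 : (Qe M X).card ≤ t := by
        by_contra hcon
        exact hex (m3 (by omega))
      have h2 : (Qe M' X).card ≤ t := by
        by_contra hcon
        exact hex (by rw [hC]; exact m3' (by omega))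
      rwa [if_pos h1, if_pos h2] at i3
  rw [l1' e he f hf, ← hP, ← hQ, ← l1 e he f hf]
  exact hdep

open Classical in
/-- The relation between a matroid and its data. -/
def Rel (r t Δ₂ : ℕ) (D : Finset (Finset (Fin n))) (c₁ : Finset (Finset (Fin n)) → Finset (Finset (Fin n)))
    (c₂ : Finset (Finset (Fin n)) → Finset (Finset (Fin n)) → Finset (Finset (Fin n)))
    (M : Matroid (Fin n))
    (d : (((Finset (Finset (Fin n)) × Finset (Finset (Fin n))) ×
      Finset (Finset (Fin n) × Bool × Finset (Fin n) × Finset (Fin n))) ×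
      Finset (Finset (Fin n) × Bool × Finset (Fin n) × Finset (Fin n))) ×
      Finset (Finset (Fin n))) : Prop :=
  ∃ U₁ U₂ : Finset (Finset (Fin n)), U₁ ⊆ NB r M ∧ U₂ ⊆ NB r M ∧
    d.1.1.1.1 = thC r t M ∧ d.1.1.1.2 = thH r t M ∧
    d.1.1.2 = U₁.image (fun X => (X, info t M X)) ∧
    d.1.2 = U₂.image (fun X => (X, info t M X)) ∧
    (∀ v ∈ V n r, v ∉ c₁ U₁ → v ∈ U₁ ∨ (∃ u ∈ U₁, adj u v) ∨ v ∉ NB r M) ∧
    (∀ v ∈ c₁ U₁, v ∉ c₂ U₁ U₂ → v ∈ U₂ ∨ (∃ u ∈ U₂, adj u v) ∨ v ∉ NB r M) ∧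
    (∀ X ∈ d.2, Und r t Δ₂ (c₂ U₁ U₂) D M X) ∧
    (∀ X', Und r t Δ₂ (c₂ U₁ U₂) D M X' → X' ∉ d.2 → ∃ X ∈ d.2, adj X X')

theorem image_pair_eq {α β : Type*} [DecidableEq α] [DecidableEq β] {U U' : Finset α}
    {f g : α → β} (h : U.image (fun X => (X, f X)) = U'.image (fun X => (X, g X))) :
    U = U' ∧ ∀ X ∈ U, f X = g X := by
  constructor
  · have := congrArg (fun s => s.image Prod.fst) h
    simpa [Finset.image_image, Function.comp_def] using this
  · intro X hX
    have : (X, f X) ∈ U.image (fun X => (X, f X)) := mem_image_of_mem _ hX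
    rw [h, mem_image] at this
    obtain ⟨Y, -, hY⟩ := this
    simp only [Prod.mk.injEq] at hY
    obtain ⟨rfl, h2⟩ := hY
    exact h2.symm

/-- The data determine the non-bases outside the container. -/
theorem out_sub (hloc : LocStmt) {r t : ℕ} {M M' : Matroid (Fin n)} (hM : Rk r M) (hM' : Rk r M')
    (hC : thC r t M = thC r t M') (hH : thH r t M = thH r t M')
    {U₁ U₂ A₁ A : Finset (Finset (Fin n))}
    (h1 : U₁ ⊆ NB r M) (h1' : U₁ ⊆ NB r M') (h2 : U₂ ⊆ NB r M) (h2' : U₂ ⊆ NB r M')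
    (i1 : ∀ X ∈ U₁, info t M X = info t M' X) (i2 : ∀ X ∈ U₂, info t M X = info t M' X)
    (k1 : ∀ v ∈ V n r, v ∉ A₁ → v ∈ U₁ ∨ (∃ u ∈ U₁, adj u v) ∨ v ∉ NB r M)
    (k2 : ∀ v ∈ A₁, v ∉ A → v ∈ U₂ ∨ (∃ u ∈ U₂, adj u v) ∨ v ∉ NB r M) :
    NB r M \ A ⊆ NB r M' \ A := by
  intro v hv
  rw [mem_sdiff] at hv ⊢
  refine ⟨?_, hv.2⟩
  have hvV := (mem_NB.1 hv.1).1
  by_cases hA : v ∈ A₁
  · rcases k2 v hA hv.2 with h | ⟨u, hu, h⟩ | h
    · exact h2' h
    · exact nbr_iff hloc hM hM' hC hH (h2 hu) (h2' hu) (i2 u hu) h hv.1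
    · exact absurd hv.1 h
  · rcases k1 v hvV hA with h | ⟨u, hu, h⟩ | h
    · exact h1' h
    · exact nbr_iff hloc hM hM' hC hH (h1 hu) (h1' hu) (i1 u hu) h hv.1
    · exact absurd hv.1 h

/-- CNT. The number of the matroids. -/
theorem cnt (hcont : ContStmt) (hsup : SupStmt) (hloc : LocStmt) (hinj : InjStmt)
    (hext : ExtStmt) : CntStmt := by
  classical
  intro n r t Δ₁ Δ₂ h u₁ a₁ u₂ D hr hrn hΔ₁ hΔ₂ hs1 hs2 hth hu₁ ha₁ hu₂ hD
  obtain ⟨c₁, c₁A, c₁L, c₁K⟩ := hcont (Finset (Fin n)) adj (V n r) Δ₁ hΔ₁ adj_symm adj_irrefl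
  choose c₂ c₂A c₂L c₂K using fun U₁ : Finset (Finset (Fin n)) =>
    hcont (Finset (Fin n)) adj (c₁ U₁) Δ₂ hΔ₂ adj_symm adj_irrefl
  have hV : (V n r).card = n.choose r := by
    unfold V; simp [card_powersetCard]
  have hpos : 0 < r * (n - r + 1) := Nat.mul_pos (by omega) (by omega)
  have hcA : ∀ U, (c₁ U).card ≤ a₁ := by
    intro U
    have h1 := hsup n r Δ₁ (c₁ U) (c₁A U) (fun v hv W hW hw => c₁L U v hv W hW hw) hr hrn.le
    have h2 : (c₁ U).card * (r * (n - r + 1)) < (a₁ + 1) * (r * (n - r + 1)) :=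
      lt_of_le_of_lt h1 ha₁
    have := Nat.lt_of_mul_lt_mul_right h2
    omega
  -- the target
  let Pt : Finset (Finset (Fin n)) := (univ : Finset (Fin n)).powerset.filter fun T => T.card ≤ t
  let Q := V n r ×ˢ ((univ : Finset Bool) ×ˢ (Pt ×ˢ Pt))
  let TC : Finset (Finset (Finset (Fin n))) :=
    (univ : Finset (Finset (Fin n))).powerset.filter fun T => T.card ≤ h
  let T1 := Q.powerset.filter fun T => T.card ≤ u₁
  let T2 := Q.powerset.filter fun T => T.card ≤ u₂
  let TS := ((V n r) \ D).powerset.filter Stb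
  have hPt : Pt.card = bl n t := by
    have := card_le_bl (univ : Finset (Fin n)) t
    rwa [card_univ, Fintype.card_fin] at this
  have hQ : Q.card = n.choose r * (2 * (bl n t) ^ 2) := by
    simp only [Q, card_product, hV, hPt, card_univ, Fintype.card_bool]
    rw [sq]
  have hTC : TC.card = bl (2 ^ n) h := by
    have := card_le_bl (univ : Finset (Finset (Fin n))) h
    rwa [card_univ, Fintype.card_finset, Fintype.card_fin] at this
  have hT1 : T1.card = bl (n.choose r * (2 * (bl n t) ^ 2)) u₁ := by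
    rw [← hQ]; exact card_le_bl Q u₁
  have hT2 : T2.card = bl (n.choose r * (2 * (bl n t) ^ 2)) u₂ := by
    rw [← hQ]; exact card_le_bl Q u₂
  have hTS : TS.card = istab n r D := rfl
  have hcard : ((((TC ×ˢ TC) ×ˢ T1) ×ˢ T2) ×ˢ TS).card =
      (bl (2 ^ n) h) ^ 2 * bl (n.choose r * (2 * (bl n t) ^ 2)) u₁ *
    bl (n.choose r * (2 * (bl n t) ^ 2)) u₂ * istab n r D := by
    simp only [card_product, hTC, hT1, hT2, hTS]
    rw [pow_two (bl (2 ^ n) h)]
  rw [← hcard]
  unfold nmat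
  refine ncard_le_of_rel _ _ (Rel r t Δ₂ D c₁ c₂) ?_ ?_
  · rintro M ⟨hM, hDM⟩
    obtain ⟨U₁, hU₁K, hU₁A, hU₁c, hU₁⟩ := c₁K (NB r M)
    obtain ⟨U₂, hU₂K, hU₂A, hU₂c, hU₂⟩ := c₂K U₁ (NB r M)
    obtain ⟨S, hSP, hSst, hSmax⟩ := exists_max_stb
      ((V n r).filter fun X => Und r t Δ₂ (c₂ U₁ U₂) D M X)
    have hUV : ∀ X, Und r t Δ₂ (c₂ U₁ U₂) D M X → X ∈ V n r := fun X hX => (mem_NB.1 hX.1).1
    have hinfoQ : ∀ X ∈ V n r, (X, info t M X) ∈ Q := by
      intro X hX
      simp only [Q, mem_product, Pt, mem_filter, mem_powerset, info, subset_univ, true_and,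
        mem_univ]
      refine ⟨hX, ?_, ?_⟩
      · split_ifs with hc
        · exact hc
        · simp
      · split_ifs with hc
        · exact hc
        · simp
    refine ⟨((((thC r t M, thH r t M), U₁.image (fun X => (X, info t M X))),
      U₂.image (fun X => (X, info t M X))), S), ?_, ?_⟩
    · simp only [mem_product]
      refine ⟨⟨⟨⟨?_, ?_⟩, ?_⟩, ?_⟩, ?_⟩
      · simp only [TC, mem_filter, mem_powerset, subset_univ, true_and]
        exact (hth M hM).1
      · simp only [TC, mem_filter, mem_powerset, subset_univ, true_and]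
        exact (hth M hM).2
      · simp only [T1, mem_filter, mem_powerset]
        constructor
        · intro q hq
          obtain ⟨X, hX, rfl⟩ := mem_image.1 hq
          exact hinfoQ X (hU₁A hX)
        · refine card_image_le.trans ?_
          rw [hV] at hU₁c
          have : U₁.card * Δ₁ < (u₁ + 1) * Δ₁ := by
            rw [mul_comm (u₁ + 1)]; exact lt_of_le_of_lt hU₁c hu₁
          have := Nat.lt_of_mul_lt_mul_right this
          omega
      · simp only [T2, mem_filter, mem_powerset]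
        constructor
        · intro q hq
          obtain ⟨X, hX, rfl⟩ := mem_image.1 hq
          exact hinfoQ X (c₁A U₁ (hU₂A hX))
        · refine card_image_le.trans ?_
          have h3 := hcA U₁
          have : U₂.card * Δ₂ < (u₂ + 1) * Δ₂ := by
            rw [mul_comm (u₂ + 1)]; omega
          have := Nat.lt_of_mul_lt_mul_right this
          omega
      · simp only [TS, mem_filter, mem_powerset]
        refine ⟨fun X hX => ?_, hSst⟩
        have := (mem_filter.1 (hSP hX))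
        rw [mem_sdiff]
        exact ⟨this.1, this.2.2.2.1⟩
    · refine ⟨U₁, U₂, hU₁K, hU₂K, rfl, rfl, rfl, rfl, hU₁, hU₂,
        fun X hX => (mem_filter.1 (hSP hX)).2, fun X' hX' hn => ?_⟩
      exact hSmax X' (mem_filter.2 ⟨hUV X' hX', hX'⟩) hn
  · rintro M ⟨hM, hDM⟩ M' ⟨hM', hDM'⟩ d - ⟨U₁, U₂, a1, a2, a3, a4, a5, a6, a7, a8, a9, a10⟩
      ⟨U₁', U₂', b1, b2, b3, b4, b5, b6, b7, b8, b9, b10⟩
    have hC : thC r t M = thC r t M' := by rw [← a3, b3]
    have hH : thH r t M = thH r t M' := by rw [← a4, b4]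
    obtain ⟨e1, i1⟩ := image_pair_eq (a5.symm.trans b5)
    obtain ⟨e2, i2⟩ := image_pair_eq (a6.symm.trans b6)
    subst e1
    subst e2
    have hout : NB r M \ c₂ U₁ U₂ = NB r M' \ c₂ U₁ U₂ := by
      apply subset_antisymm
      · exact out_sub hloc hM hM' hC hH a1 b1 a2 b2 i1 i2 a7 a8
      · exact out_sub hloc hM' hM hC.symm hH.symm b1 a1 b2 a2 (fun X hX => (i1 X hX).symm)
          (fun X hX => (i2 X hX).symm) b7 b8
    have hAV : c₂ U₁ U₂ ⊆ V n r := (c₂A U₁ U₂).trans (c₁A U₁)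
    have hLow : Low (c₂ U₁ U₂) Δ₂ := fun v hv W hW hw => c₂L U₁ U₂ v hv W hW hw
    refine hext n r M M' hM hM' (subset_antisymm ?_ ?_)
    · refine hinj n r t Δ₂ M M' (c₂ U₁ U₂) D d.2 hM hM' hAV hLow hs1 hs2 hC hH hout hDM'
        (fun X hX => (b9 X hX).1) (fun X' hX' hn => ?_)
      obtain ⟨X, hX, hadj⟩ := a10 X' hX' hn
      exact ⟨X, hX, a9 X hX, hadj⟩
    · refine hinj n r t Δ₂ M' M (c₂ U₁ U₂) D d.2 hM' hM hAV hLow hs1 hs2 hC.symm hH.symm
        hout.symm hDM (fun X hX => (a9 X hX).1) (fun X' hX' hn => ?_)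
      obtain ⟨X, hX, hadj⟩ := b10 X' hX' hn
      exact ⟨X, hX, b9 X hX, hadj⟩

end Pool.Agent.Helper62.KC
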