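import Pool.Agent.Helper80.KC.Goals

/-!
# Packet KC-LEM (MP_eaa1a7_co): families with large intersections
-/

set_option autoImplicit false

open Module

namespace Pool.Agent.Helper62.KC

open Pool.Agent.Helper80.KC

/-- **LEM**. -/
theorem goalLEM : G_LEM := by
  intro k V _ _ _ N S h3 h2
  by_cases hall : ∀ x ∈ S, ∀ y ∈ S, N x = N y
  · left
    by_cases hS : S.Nonempty
    · obtain ⟨x0, hx0⟩ := hS
      exact ⟨N x0, by rw [h3]; norm_num, fun x hx => (hall x hx x0 hx0).le⟩
    · refine ⟨⊥, by rw [finrank_bot]; norm_num, fun x hx => ?_⟩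
      exact absurd ⟨x, hx⟩ hS
  · push Not at hall
    obtain ⟨a, ha, b, hb, hab⟩ := hall
    set E : Submodule ℝ V := N a ⊓ N b with hE
    set Y : Submodule ℝ V := N a ⊔ N b with hY
    have hE2 : finrank ℝ E = 2 := by
      have h1 := h2 a ha b hb
      by_contra hne
      have h4 : 3 ≤ finrank ℝ E := by
        have : 2 ≤ finrank ℝ E := h1
        omega
      have e1 : E = N a := Submodule.eq_of_le_of_finrank_le inf_le_left (by rw [h3]; exact h4)
      have e2 : E = N b := Submodule.eq_of_le_of_finrank_le inf_le_right (by rw [h3]; exact h4)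
      exact hab (e1.symm.trans e2)
    have hY4 : finrank ℝ Y = 4 := by
      have h1 := Submodule.finrank_sup_add_finrank_inf_eq (N a) (N b)
      rw [h3, h3] at h1
      have h4 : finrank ℝ Y + finrank ℝ E = 3 + 3 := h1
      omega
    have hA : ∀ x ∈ S, ¬ E ≤ N x → N x ≤ Y := by
      intro x hx hEx
      have hP := h2 x hx a ha
      have hQ := h2 x hx b hb
      have h1 := Submodule.finrank_sup_add_finrank_inf_eq (N x ⊓ N a) (N x ⊓ N b)
      have hPQ : (N x ⊓ N a) ⊓ (N x ⊓ N b) ≤ E :=
        le_inf (inf_le_left.trans inf_le_right) (inf_le_right.trans inf_le_right)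
      have h4 : finrank ℝ ((N x ⊓ N a) ⊓ (N x ⊓ N b) : Submodule ℝ V) ≤ 1 := by
        by_contra hcon
        have h5 := Submodule.eq_of_le_of_finrank_le hPQ (by rw [hE2]; omega)
        apply hEx
        rw [← h5]
        exact inf_le_left.trans inf_le_left
      have h6 : (N x ⊓ N a) ⊔ (N x ⊓ N b) ≤ N x := sup_le inf_le_left inf_le_left
      have h7 := Submodule.eq_of_le_of_finrank_le h6 (by rw [h3]; omega)
      rw [← h7]
      exact sup_le (inf_le_right.trans le_sup_left) (inf_le_right.trans le_sup_right)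
    by_cases hallE : ∀ x ∈ S, E ≤ N x
    · right
      exact ⟨E, hE2, hallE⟩
    · left
      push Not at hallE
      obtain ⟨c, hc, hEc⟩ := hallE
      have hcY := hA c hc hEc
      refine ⟨Y, hY4.le, fun x hx => ?_⟩
      by_contra hxY
      have hEx : E ≤ N x := by
        by_contra hEx
        exact hxY (hA x hx hEx)
      have hEY : E ≤ N x ⊓ Y := le_inf hEx (inf_le_left.trans le_sup_left)
      have h4 : finrank ℝ (N x ⊓ Y : Submodule ℝ V) ≤ 2 := by
        by_contra hcon
        have h5 : N x ⊓ Y = N x :=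
          Submodule.eq_of_le_of_finrank_le inf_le_left (by rw [h3]; omega)
        exact hxY (inf_eq_left.1 h5)
      have h6 : E = N x ⊓ Y := Submodule.eq_of_le_of_finrank_le hEY (by rw [hE2]; exact h4)
      have h7 : N x ⊓ N c ≤ E := by
        rw [h6]
        exact le_inf inf_le_left (inf_le_right.trans hcY)
      have h8 : N x ⊓ N c = E :=
        Submodule.eq_of_le_of_finrank_le h7 (by rw [hE2]; exact h2 x hx c hc)
      apply hEc
      rw [← h8]
      exact inf_le_right

end Pool.Agent.Helper62.KC
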